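import Mathlib

/-!
# The number of positive squares of a real symmetric form
-/

open Set Filter Topology

set_option autoImplicit false

namespace Pool.Agent.H844.Sig

variable {E F G : Type*} [AddCommGroup E] [Module ℝ E] [AddCommGroup F] [Module ℝ F]
  [AddCommGroup G] [Module ℝ G]

/-- There are `r` vectors which span a space of dimension `r` on which the form is positive. -/
def PF (B : E →ₗ[ℝ] E →ₗ[ℝ] ℝ) (r : ℕ) : Prop :=
  ∃ v : Fin r → E, ∀ t : Fin r → ℝ, t ≠ 0 → 0 < B (∑ a, t a • v a) (∑ a, t a • v a)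

/-- The number of positive squares. -/
noncomputable def pos (B : E →ₗ[ℝ] E →ₗ[ℝ] ℝ) : ℕ :=
  sigPos (LinearMap.BilinMap.toQuadraticMap B)

lemma pf_iff [FiniteDimensional ℝ E] (B : E →ₗ[ℝ] E →ₗ[ℝ] ℝ) (r : ℕ) : PF B r ↔ r ≤ pos B := by
  constructor
  · rintro ⟨v, hv⟩
    have hli : LinearIndependent ℝ v := by
      rw [Fintype.linearIndependent_iff]
      intro t ht
      by_contra hne
      push Not at hne
      have ht0 : t ≠ 0 := by
        rintro rfl
        obtain ⟨i, hi⟩ := hne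
        exact hi rfl
      have := hv t ht0
      rw [ht] at this
      simp at this
    have h1 := finrank_span_eq_card hli
    rw [Fintype.card_fin] at h1
    rw [← h1]
    apply le_sigPos_of_posDef
    rintro ⟨x, hx⟩ hx0
    rw [Submodule.mem_span_range_iff_exists_fun] at hx
    obtain ⟨t, rfl⟩ := hx
    have ht0 : t ≠ 0 := by
      rintro rfl
      apply hx0
      simp
    have := hv t ht0
    simpa using this
  · intro hr
    obtain ⟨V, hV, hpos⟩ := exists_finrank_eq_sigPos_and_posDef (LinearMap.BilinMap.toQuadraticMap B)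
    have hV' : r ≤ Module.finrank ℝ V := by rw [hV]; exact hr
    let b := Module.finBasis ℝ V
    refine ⟨fun a => (b (Fin.castLE hV' a) : E), fun t ht => ?_⟩
    have h1 : (∑ a, t a • (b (Fin.castLE hV' a) : E)) = ((∑ a, t a • b (Fin.castLE hV' a) : V) : E) := by
      simp
    have h2 : (∑ a, t a • b (Fin.castLE hV' a) : V) ≠ 0 := by
      intro h0
      apply ht
      have hli := (b.linearIndependent.comp (Fin.castLE hV') (Fin.castLE_injective hV'))
      rw [Fintype.linearIndependent_iff] at hli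
      funext a
      exact hli t h0 a
    have h3 := hpos _ h2
    rw [h1]
    simpa using h3

lemma radical_eq (B : E →ₗ[ℝ] E →ₗ[ℝ] ℝ) (hs : ∀ x y, B x y = B y x) :
    (LinearMap.BilinMap.toQuadraticMap B).radical = LinearMap.ker B := by
  ext x
  rw [QuadraticMap.mem_radical_iff', LinearMap.mem_ker]
  simp only [LinearMap.BilinMap.toQuadraticMap_apply, map_add, LinearMap.add_apply]
  constructor
  · rintro ⟨h0, h⟩
    ext y
    have := h y
    rw [hs y x, h0] at this
    rw [LinearMap.zero_apply]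
    linarith
  · intro h
    refine ⟨by rw [h]; simp, fun y => ?_⟩
    rw [hs y x, h]
    simp

lemma pos_add [FiniteDimensional ℝ E] (B : E →ₗ[ℝ] E →ₗ[ℝ] ℝ) (hs : ∀ x y, B x y = B y x) :
    pos B + pos (-B) + Module.finrank ℝ (LinearMap.ker B) = Module.finrank ℝ E := by
  have h := QuadraticForm.sigPos_add_sigNeg_add_radical
    (Q := LinearMap.BilinMap.toQuadraticMap B)
  rw [radical_eq B hs] at h
  have e : LinearMap.BilinMap.toQuadraticMap (-B) = -LinearMap.BilinMap.toQuadraticMap B := by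
    ext x
    simp
  rw [pos, pos, e]
  exact h

/-- The form `B (f x) (f y)`. -/
noncomputable def pull (B : E →ₗ[ℝ] E →ₗ[ℝ] ℝ) (f : F →ₗ[ℝ] E) : F →ₗ[ℝ] F →ₗ[ℝ] ℝ :=
  B.compl₁₂ f f

@[simp] lemma pull_apply (B : E →ₗ[ℝ] E →ₗ[ℝ] ℝ) (f : F →ₗ[ℝ] E) (x y : F) :
    pull B f x y = B (f x) (f y) := rfl

lemma pull_neg (B : E →ₗ[ℝ] E →ₗ[ℝ] ℝ) (f : F →ₗ[ℝ] E) : pull (-B) f = -pull B f := by
  ext x y; simp

lemma pf_append {B : E →ₗ[ℝ] E →ₗ[ℝ] ℝ} (hs : ∀ x y, B x y = B y x) {f : F →ₗ[ℝ] E}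
    {g : G →ₗ[ℝ] E} (ho : ∀ x y, B (f x) (g y) = 0) {r s : ℕ} (h1 : PF (pull B f) r)
    (h2 : PF (pull B g) s) : PF B (r + s) := by
  obtain ⟨v, hv⟩ := h1
  obtain ⟨w, hw⟩ := h2
  refine ⟨Fin.append (fun a => f (v a)) (fun a => g (w a)), fun t ht => ?_⟩
  rw [Fin.sum_univ_add]
  simp only [Fin.append_left, Fin.append_right]
  have e1 : ∑ i : Fin r, t (Fin.castAdd s i) • f (v i) = f (∑ i, t (Fin.castAdd s i) • v i) := by
    simp
  have e2 : ∑ i : Fin s, t (Fin.natAdd r i) • g (w i) = g (∑ i, t (Fin.natAdd r i) • w i) := by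
    simp
  rw [e1, e2]
  set x := ∑ i, t (Fin.castAdd s i) • v i with hx
  set y := ∑ i, t (Fin.natAdd r i) • w i with hy
  have e3 : B (f x + g y) (f x + g y) = B (f x) (f x) + B (g y) (g y) := by
    simp only [map_add, LinearMap.add_apply, hs (g y) (f x), ho, add_zero, zero_add]
  rw [e3]
  by_cases h1 : (fun i => t (Fin.castAdd s i)) = 0
  · have h2 : (fun i => t (Fin.natAdd r i)) ≠ 0 := by
      intro h2
      apply ht
      funext i
      refine Fin.addCases (fun j => ?_) (fun j => ?_) i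
      · exact congrFun h1 j
      · exact congrFun h2 j
    have h3 := hw _ h2
    have h4 : x = 0 := by
      rw [hx]
      refine Finset.sum_eq_zero fun i _ => ?_
      rw [show t (Fin.castAdd s i) = 0 from congrFun h1 i, zero_smul]
    have h5 : B (f x) (f x) + B (g y) (g y) = B (g y) (g y) := by
      rw [h4]; simp
    rw [h5]
    exact h3
  · have h3 := hv _ h1
    have h5 : 0 ≤ B (g y) (g y) := by
      by_cases h2 : (fun i => t (Fin.natAdd r i)) = 0
      · have h4 : y = 0 := by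
          rw [hy]
          refine Finset.sum_eq_zero fun i _ => ?_
          rw [show t (Fin.natAdd r i) = 0 from congrFun h2 i, zero_smul]
        rw [h4]
        simp
      · exact (hw _ h2).le
    have h6 : 0 < B (f x) (f x) := h3
    linarith

lemma pos_coprod [FiniteDimensional ℝ E] [FiniteDimensional ℝ F] [FiniteDimensional ℝ G]
    {B : E →ₗ[ℝ] E →ₗ[ℝ] ℝ} (hs : ∀ x y, B x y = B y x) {f : F →ₗ[ℝ] E}
    {g : G →ₗ[ℝ] E} (ho : ∀ x y, B (f x) (g y) = 0) (hb : Function.Bijective (f.coprod g)) :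
    pos B = pos (pull B f) + pos (pull B g) := by
  have h1 : pos (pull B f) + pos (pull B g) ≤ pos B := by
    rw [← pf_iff]
    exact pf_append hs ho ((pf_iff _ _).2 le_rfl) ((pf_iff _ _).2 le_rfl)
  have h2 : pos (-pull B f) + pos (-pull B g) ≤ pos (-B) := by
    rw [← pf_iff]
    refine pf_append (f := f) (g := g) (fun x y => ?_) (fun x y => ?_) ?_ ?_
    · rw [LinearMap.neg_apply, LinearMap.neg_apply, LinearMap.neg_apply, LinearMap.neg_apply, hs]
    · rw [LinearMap.neg_apply, LinearMap.neg_apply, ho, neg_zero]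
    · rw [pull_neg]; exact (pf_iff _ _).2 le_rfl
    · rw [pull_neg]; exact (pf_iff _ _).2 le_rfl
  have h3 := pos_add B hs
  have h4 := pos_add (pull B f) fun x y => hs _ _
  have h5 := pos_add (pull B g) fun x y => hs _ _
  have h6 : Module.finrank ℝ E = Module.finrank ℝ F + Module.finrank ℝ G := by
    rw [← Module.finrank_prod, (LinearEquiv.ofBijective _ hb).finrank_eq]
  have h7 : Module.finrank ℝ (LinearMap.ker (pull B f)) + Module.finrank ℝ (LinearMap.ker (pull B g)) ≤
      Module.finrank ℝ (LinearMap.ker B) := by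
    rw [← Module.finrank_prod]
    have hmem : ∀ p : LinearMap.ker (pull B f) × LinearMap.ker (pull B g),
        f p.1 + g p.2 ∈ LinearMap.ker B := by
      rintro ⟨⟨x, hx⟩, ⟨y, hy⟩⟩
      rw [LinearMap.mem_ker]
      ext z
      obtain ⟨⟨a, b⟩, rfl⟩ := hb.2 z
      have hx1 : B (f x) (f a) = 0 := by
        have := LinearMap.congr_fun (LinearMap.mem_ker.1 hx) a
        simpa using this
      have hy1 : B (g y) (g b) = 0 := by
        have := LinearMap.congr_fun (LinearMap.mem_ker.1 hy) b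
        simpa using this
      simp only [LinearMap.coprod_apply, map_add, LinearMap.add_apply, LinearMap.zero_apply, hx1, hy1,
        ho, hs (g y) (f a), add_zero]
    let φ : (LinearMap.ker (pull B f) × LinearMap.ker (pull B g)) →ₗ[ℝ] LinearMap.ker B :=
      LinearMap.codRestrict _ ((f.coprod g) ∘ₗ
        (LinearMap.prodMap (LinearMap.ker (pull B f)).subtype (LinearMap.ker (pull B g)).subtype))
        (fun p => hmem p)
    apply LinearMap.finrank_le_finrank_of_injective (f := φ)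
    rintro ⟨⟨x, hx⟩, ⟨y, hy⟩⟩ ⟨⟨x', hx'⟩, ⟨y', hy'⟩⟩ h
    have h8 := congrArg Subtype.val h
    have h9 : (f.coprod g) (x, y) = (f.coprod g) (x', y') := h8
    have h10 := hb.1 h9
    simpa using h10
  omega

lemma open_pos {X : Type*} [TopologicalSpace X] {r : ℕ} (M : X → Fin r → Fin r → ℝ)
    (hM : ∀ a b, Continuous fun x => M x a b) {x₀ : X}
    (h0 : ∀ t : Fin r → ℝ, t ≠ 0 → 0 < ∑ a, ∑ b, t a * t b * M x₀ a b) :
    ∀ᶠ x in 𝓝 x₀, ∀ t : Fin r → ℝ, t ≠ 0 → 0 < ∑ a, ∑ b, t a * t b * M x a b := by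
  have hK : IsCompact (Metric.sphere (0 : Fin r → ℝ) 1) := isCompact_sphere _ _
  have hc : Continuous fun p : X × (Fin r → ℝ) => ∑ a, ∑ b, p.2 a * p.2 b * M p.1 a b := by
    refine continuous_finsetSum _ fun a _ => continuous_finsetSum _ fun b _ => ?_
    have h1 : Continuous fun p : X × (Fin r → ℝ) => M p.1 a b := (hM a b).comp continuous_fst
    have h2 : Continuous fun p : X × (Fin r → ℝ) => p.2 a := (continuous_apply a).comp continuous_snd
    have h3 : Continuous fun p : X × (Fin r → ℝ) => p.2 b := (continuous_apply b).comp continuous_snd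
    exact (h2.mul h3).mul h1
  have h1 : ∀ᶠ x in 𝓝 x₀, ∀ t ∈ Metric.sphere (0 : Fin r → ℝ) 1,
      0 < ∑ a, ∑ b, t a * t b * M x a b := by
    refine hK.eventually_forall_of_forall_eventually fun t ht => ?_
    have ht0 : t ≠ 0 := by
      rintro rfl
      simp at ht
    exact (hc.tendsto (x₀, t)).eventually_const_lt (h0 t ht0)
  filter_upwards [h1] with x hx t ht
  have hn : ‖t‖ ≠ 0 := norm_ne_zero_iff.2 ht
  have h2 := hx (‖t‖⁻¹ • t) (by
    rw [mem_sphere_zero_iff_norm, norm_smul, norm_inv, norm_norm, inv_mul_cancel₀ hn])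
  have h3 : ∑ a, ∑ b, (‖t‖⁻¹ • t) a * (‖t‖⁻¹ • t) b * M x a b =
      ‖t‖⁻¹ ^ 2 * ∑ a, ∑ b, t a * t b * M x a b := by
    rw [Finset.mul_sum]
    refine Finset.sum_congr rfl fun a _ => ?_
    rw [Finset.mul_sum]
    refine Finset.sum_congr rfl fun b _ => ?_
    simp only [Pi.smul_apply, smul_eq_mul]
    ring
  rw [h3] at h2
  exact (pos_iff_pos_of_mul_pos h2).1 (by positivity)

lemma quad_sum {r : ℕ} (B : E →ₗ[ℝ] E →ₗ[ℝ] ℝ) (v : Fin r → E) (t : Fin r → ℝ) :
    B (∑ a, t a • v a) (∑ a, t a • v a) = ∑ a, ∑ b, t a * t b * B (v a) (v b) := by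
  rw [LinearMap.map_sum₂]
  refine Finset.sum_congr rfl fun a _ => ?_
  rw [map_sum]
  refine Finset.sum_congr rfl fun b _ => ?_
  simp only [map_smul, LinearMap.smul_apply, smul_eq_mul]
  ring

lemma pos_semicont [FiniteDimensional ℝ E] {B : ℝ → E →ₗ[ℝ] E →ₗ[ℝ] ℝ}
    (hc : ∀ x y, Continuous fun t => B t x y) (t₀ : ℝ) :
    ∀ᶠ t in 𝓝 t₀, pos (B t₀) ≤ pos (B t) := by
  obtain ⟨v, hv⟩ := (pf_iff (B t₀) _).2 le_rfl
  have h := open_pos (fun t a b => B t (v a) (v b)) (fun a b => hc _ _) (x₀ := t₀) (fun c hc0 => by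
    rw [← quad_sum]
    exact hv c hc0)
  filter_upwards [h] with t ht
  rw [← pf_iff]
  refine ⟨v, fun c hc0 => ?_⟩
  rw [quad_sum]
  exact ht c hc0

/-- **The number of positive squares is constant in families with a constant radical.** -/
lemma pos_const [FiniteDimensional ℝ E] {B : ℝ → E →ₗ[ℝ] E →ₗ[ℝ] ℝ}
    (hc : ∀ x y, Continuous fun t => B t x y) (hs : ∀ t x y, B t x y = B t y x)
    (hr : ∀ t ∈ Icc (0 : ℝ) 1, LinearMap.ker (B t) = LinearMap.ker (B 0)) :
    pos (B 0) = pos (B 1) := by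
  have hcont : ContinuousOn (fun t => pos (B t)) (Icc (0 : ℝ) 1) := by
    intro t₀ ht₀
    have h1 := pos_semicont hc t₀
    have h2 := pos_semicont (B := fun t => -B t) (fun x y => by
      simp only [LinearMap.neg_apply]
      exact (hc x y).neg) t₀
    have h3 : ∀ᶠ t in 𝓝[Icc (0 : ℝ) 1] t₀, pos (B t₀) = pos (B t) := by
      filter_upwards [mem_nhdsWithin_of_mem_nhds h1, mem_nhdsWithin_of_mem_nhds h2,
        self_mem_nhdsWithin] with t h1 h2 ht
      have h4 := pos_add (B t₀) (hs t₀)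
      have h5 := pos_add (B t) (hs t)
      rw [hr t₀ ht₀] at h4
      rw [hr t ht] at h5
      have h6 : pos (B t₀) ≤ pos (B t) := h1
      have h7 : pos (-B t₀) ≤ pos (-B t) := h2
      omega
    exact tendsto_const_nhds.congr' h3
  exact isPreconnected_Icc.constant hcont (by simp) (by simp)

end Pool.Agent.H844.Sig
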