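import Pool.Agent.H844.Sig.Rat

/-!
# The number of squares on the cycles homologous to zero
-/

open scoped TensorProduct

set_option autoImplicit false

namespace Pool.Agent.H844.Sig

open Pool.Agent.H844.Hgt

universe u v

variable {C : Type u} {W : Type v} [CommRing C] [Algebra ℚ C] [AddCommGroup W] [Module ℚ W]
  [Module C W] [IsScalarTower ℚ C W]

/-- The components of degree at most zero. -/
def Low (part : ℤ → ℤ → Submodule ℚ W) (i : ℤ) : Submodule ℚ W := ⨆ s, ⨆ (_ : s ≤ 0), part i s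

variable {n : ℕ} {part : ℤ → ℤ → Submodule ℚ W} {Sym Anti : Set C} {ht : W →ₗ[ℚ] W →ₗ[ℚ] ℝ}
  (hA : IsAbelianCycles n part Sym Anti ht)

include hA

lemma prod_part {m : ℕ} {L : Fin m → C} (hL : ∀ p, L p ∈ Sym) {i s : ℤ} {x : W}
    (hx : x ∈ part i s) : (∏ p, L p) • x ∈ part (i + m) s := by
  obtain ⟨U, hU, h1, h2⟩ := hA.locFin i s x hx
  have := hU.prod_mem Finset.univ hL h2
  rw [Finset.card_univ, Fintype.card_fin] at this
  exact h1 _ this

lemma prod_low {m : ℕ} {L : Fin m → C} (hL : ∀ p, L p ∈ Sym) {i : ℤ} {x : W}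
    (hx : x ∈ Low part i) : (∏ p, L p) • x ∈ Low part (i + m) := by
  have h : Low part i ≤ (Low part (i + m)).comap (Algebra.lsmul ℚ ℚ W (∏ p, L p)) :=
    iSup₂_le fun s hs y hy => (le_iSup₂_of_le (f := fun s (_ : s ≤ 0) => part (i + m) s) s hs le_rfl)
      (prod_part hA hL hy)
  exact h hx

lemma orth_one_low {i j : ℤ} {x y : W} (hx : x ∈ part i 1) (hy : y ∈ Low part j) : ht x y = 0 := by
  have h : Low part j ≤ LinearMap.ker (ht x) :=
    iSup₂_le fun s hs z hz => hA.ht_orth i j 1 s (by intro h; omega) x hx z hz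
  exact h hy

lemma orth_low_low {i j : ℤ} {x y : W} (hx : x ∈ Low part i) (hy : y ∈ Low part j) :
    ht x y = 0 := by
  have h1 : ∀ s ≤ 0, ∀ x ∈ part i s, ht x y = 0 := by
    intro s hs x hx
    have h : Low part j ≤ LinearMap.ker (ht x) :=
      iSup₂_le fun t ht' z hz => hA.ht_orth i j s t (by intro h; omega) x hx z hz
    exact h hy
  have h : Low part i ≤ LinearMap.ker (ht.flip y) := iSup₂_le fun s hs z hz => h1 s hs z hz
  exact h hx

/-- The component of degree one. -/
lemma split {i k : ℕ} (hik : (n : ℤ) + 1 = 2 * i + k) {L : Fin (k + 1) → C}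
    (hL : ∀ p, L p ∈ Sym) {x : W} (hx : x ∈ Ch0 part i) (h0 : (∏ p, L p) • x = 0) :
    ∃ y ∈ part i 1, (∏ p, L p) • y = 0 ∧ ∃ z ∈ Low part i, x = y + z := by
  classical
  obtain ⟨f, hf, rfl⟩ := (Submodule.mem_iSup_iff_exists_finsupp _ _).1 hx
  have hsum : (∏ p, L p) • (f.sum fun _ => id) = ∑ s ∈ f.support, (∏ p, L p) • f s := by
    rw [Finsupp.sum, Finset.smul_sum]
    rfl
  have hz : ∀ s, (∏ p, L p) • f s = 0 := by
    intro s
    have h1 := (hA.indep (i + ((k + 1 : ℕ) : ℤ))) s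
    rw [Submodule.disjoint_def] at h1
    refine h1 _ (prod_part hA hL (hf s)) ?_
    by_cases hs : s ∈ f.support
    · have h2 : (∏ p, L p) • f s = -∑ s' ∈ f.support.erase s, (∏ p, L p) • f s' := by
        have h3 := Finset.add_sum_erase f.support (fun s' => (∏ p, L p) • f s') hs
        rw [← hsum] at h3
        have h4 : (∏ p, L p) • (f.sum fun _ => id) = 0 := h0
        rw [h4] at h3
        exact eq_neg_of_add_eq_zero_left h3
      rw [h2]
      refine Submodule.neg_mem _ (Submodule.sum_mem _ fun s' hs' => ?_)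
      exact (le_iSup₂_of_le (f := fun s' (_ : s' ≠ s) => part (i + ((k + 1 : ℕ) : ℤ)) s')
        s' (Finset.ne_of_mem_erase hs') le_rfl) (prod_part hA hL (hf s'))
    · rw [Finsupp.notMem_support_iff.1 hs, smul_zero]
      exact Submodule.zero_mem _
  have hbig : ∀ s, 2 ≤ s → f s = 0 := by
    intro s hs
    obtain ⟨U, hU, -, hxU⟩ := hA.locFin i s _ (hf s)
    have hr : (((s - 2).toNat : ℕ) : ℤ) = s - 2 := Int.toNat_of_nonneg (by linarith)
    exact inj_of_large hU (k := k) (r := (s - 2).toNat) (by push_cast; rw [hr]; linarith) (hL 0) hL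
      hxU (hz s)
  have hlow : ∀ s, s ≠ 1 → f s ∈ Low part i := by
    intro s hs
    by_cases h2 : 2 ≤ s
    · rw [hbig s h2]; exact Submodule.zero_mem _
    · have h3 : s ≤ 0 := by omega
      exact (le_iSup₂_of_le (f := fun s (_ : s ≤ 0) => part (i : ℤ) s) s h3 le_rfl) (hf s)
  refine ⟨f 1, hf 1, hz 1, (f.sum fun _ => id) - f 1, ?_, by abel⟩
  by_cases h1 : (1 : ℤ) ∈ f.support
  · have h3 := Finset.add_sum_erase f.support (fun s' => f s') h1
    have h4 : (f.sum fun _ => id) - f 1 = ∑ s ∈ f.support.erase 1, f s := by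
      rw [sub_eq_iff_eq_add', h3]
      rfl
    rw [h4]
    exact Submodule.sum_mem _ fun s hs => hlow s (Finset.ne_of_mem_erase hs)
  · rw [Finsupp.notMem_support_iff.1 h1, sub_zero]
    refine Submodule.sum_mem _ fun s hs => hlow s ?_
    rintro rfl
    exact h1 hs

/-- **The number of squares for symmetric ample classes.** -/
theorem sym_gram (hne : Sym.Nonempty) {i k : ℕ} (hik : n + 1 = 2 * i + k) (ε : ℝ)
    {L M : Fin (k + 1) → C} (hL : ∀ p, L p ∈ Sym) (hM : ∀ p, M p ∈ Sym) {r : ℕ}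
    (h : GramQ ht ε (∏ p, L p) (∏ p : Fin k, L p.castSucc) (Ch0 part i) r) :
    GramQ ht ε (∏ p, M p) (∏ p : Fin k, M p.castSucc) (Ch0 part i) r := by
  have hikz : (n : ℤ) + 1 = 2 * i + k := by exact_mod_cast hik
  obtain ⟨x, hx, hpos⟩ := h
  choose y hy hy0 z hz hxyz using fun a => split hA hikz hL (hx a).1 (hx a).2
  have hg : ∀ a b, ht (x a) ((∏ p : Fin k, L p.castSucc) • x b) =
      ht (y a) ((∏ p : Fin k, L p.castSucc) • y b) := by
    intro a b
    have e1 := prod_part hA (L := fun p : Fin k => L p.castSucc) (fun p => hL _) (hy b)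
    have e2 := prod_low hA (L := fun p : Fin k => L p.castSucc) (fun p => hL _) (hz b)
    rw [hxyz a, hxyz b, smul_add, map_add, map_add, LinearMap.add_apply, LinearMap.add_apply,
      orth_one_low hA (hy a) e2, orth_low_low hA (hz a) e2, hA.ht_symm (z a),
      orth_one_low hA e1 (hz a), add_zero, add_zero, add_zero]
  obtain ⟨U, hU, hUP, hyU⟩ := lef_family hne (P := fun j => part j 1) (c := (n : ℤ) + 1)
    (fun j x hx => hA.locFin j 1 x hx) y hy
  obtain ⟨x', hx', hpos'⟩ := lef_gram hU hA.ht_symm hA.ht_adj (i := i) (k := k) (by linarith) ε hL hM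
    (r := r) ⟨y, fun a => ⟨hyU a, hy0 a⟩, fun t ht0 => by
      have := hpos t ht0
      simpa only [hg] using this⟩
  exact ⟨x', fun a => ⟨Submodule.mem_iSup_of_mem 1 (hUP _ (hx' a).1), (hx' a).2⟩, hpos'⟩

end Pool.Agent.H844.Sig
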