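import Pool.Agent.H844.Sig.St3
import Pool.Agent.H844.Sig.Comb
import Pool.Agent.H844.Hgt.Cls

/-!
# The number of squares does not depend on the polarization
-/

set_option autoImplicit false

namespace Pool.Agent.H844.Sig

open Pool.Agent.H844.Hgt Pool.Agent.H844.Hgt.St

universe u v

lemma has_sym (A : AV.{u, v}) {i k : ℕ} (hik : A.dim + 1 = 2 * i + k) (ε : ℝ)
    {L M : Fin (k + 1) → A.C} (hL : ∀ p, L p ∈ A.Sym) (hM : ∀ p, M p ∈ A.Sym) {r : ℕ}
    (h : HasSquares A.part A.ht ε i k L r) : HasSquares A.part A.ht ε i k M r :=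
  sym_gram (AV_old A) A.nonempty hik ε hL hM h

lemma has_trans (A : AV.{u, v}) {i k : ℕ} (ε : ℝ) {L L' : A.C} {T : A.W → A.W}
    (hT : IsTranslation A.part A.ht L L' T) {r : ℕ} :
    HasSquares A.part A.ht ε i k (fun _ => L) r ↔ HasSquares A.part A.ht ε i k (fun _ => L') r := by
  have hp : ∀ (m : ℕ) (x : A.W), T (L ^ m • x) = L' ^ m • T x := by
    intro m
    induction m with
    | zero => intro x; simp
    | succ m ih => intro x; rw [pow_succ, mul_smul, ih, hT.mul, ← mul_smul, ← pow_succ]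
  have hT0 : T 0 = 0 := by
    have := hT.add 0 0
    rw [add_zero] at this
    exact left_eq_add.1 this
  constructor
  · rintro ⟨x, hx, hpos⟩
    refine ⟨fun a => T (x a), fun a => ⟨(hT.codim _ _).2 (hx a).1, ?_⟩, fun t ht => ?_⟩
    · have := (hx a).2
      rw [Fin.prod_const] at this ⊢
      rw [← hp, this, hT0]
    · have := hpos t ht
      simp only [Fin.prod_const] at this ⊢
      simp only [← hp, hT.height]
      exact this
  · rintro ⟨x, hx, hpos⟩
    choose y hy using fun a => hT.bij.2 (x a)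
    refine ⟨y, fun a => ⟨(hT.codim i _).1 (by rw [hy]; exact (hx a).1), ?_⟩, fun t ht => ?_⟩
    · have := (hx a).2
      rw [Fin.prod_const] at this ⊢
      apply hT.bij.1
      rw [hp, hy, this, hT0]
    · have := hpos t ht
      simp only [Fin.prod_const] at this ⊢
      simp only [← hy, ← hp, hT.height] at this
      exact this

lemma squares_congr {A : AV.{u, v}} {ε : ℝ} {i k : ℕ} {L M : Fin (k + 1) → A.C}
    (h : ∀ r, HasSquares A.part A.ht ε i k L r ↔ HasSquares A.part A.ht ε i k M r) :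
    squares A.part A.ht ε i k L = squares A.part A.ht ε i k M := by
  have e : HasSquares A.part A.ht ε i k L = HasSquares A.part A.ht ε i k M :=
    funext fun r => propext (h r)
  unfold squares
  rw [e]

lemma squares_sym (A : AV.{u, v}) {i k : ℕ} (hik : A.dim + 1 = 2 * i + k) (ε : ℝ)
    {L M : Fin (k + 1) → A.C} (hL : ∀ p, L p ∈ A.Sym) (hM : ∀ p, M p ∈ A.Sym) :
    squares A.part A.ht ε i k L = squares A.part A.ht ε i k M :=
  squares_congr fun _ => ⟨has_sym A hik ε hL hM, has_sym A hik ε hM hL⟩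

lemma squares_ample (A : AV.{u, v}) {i k : ℕ} (hik : A.dim + 1 = 2 * i + k) (ε : ℝ) {L : A.C}
    (hL : L ∈ A.ample) {M : Fin (k + 1) → A.C} (hM : ∀ p, M p ∈ A.Sym) :
    squares A.part A.ht ε i k (fun _ => L) = squares A.part A.ht ε i k M := by
  obtain ⟨S, hS, a, ha, rfl⟩ := hL
  obtain ⟨T, hT⟩ := A.isAbelian.trans S hS a ha
  rw [← squares_sym A hik ε (L := fun _ => S) (fun _ => hS) hM]
  exact (squares_congr fun r => has_trans A ε hT).symm

lemma semi_iff (A : AV.{u, v}) (i k : ℕ) (L : A.C) :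
    A.minus i k (fun _ => L) = 0 ↔ A.SemiQ2 i k L := by
  constructor
  · intro h x hx h0
    by_contra hneg
    push Not at hneg
    have h1 : HasSquares A.part A.ht (-(-1) ^ i) i k (fun _ => L) 1 := by
      refine ⟨fun _ => x, fun _ => ⟨hx, by rw [Fin.prod_const]; exact h0⟩, fun t ht => ?_⟩
      have ht0 : t 0 ≠ 0 := by
        intro h2
        apply ht
        funext a
        rw [Fin.fin_one_eq_zero a, h2]
        rfl
      simp only [Fin.prod_const, Finset.univ_unique, Fin.default_eq_zero, Fin.isValue,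
        Finset.sum_singleton]
      have h3 : 0 < t 0 * t 0 := mul_self_pos.2 ht0
      have h4 : -(-1) ^ i * (t 0 * t 0 * val A.ht x (L ^ k • x)) =
          (t 0 * t 0) * -((-1) ^ i * val A.ht x (L ^ k • x)) := by ring
      rw [h4]
      exact mul_pos h3 (by linarith)
    have h2 : (1 : ℕ∞) ≤ A.minus i k (fun _ => L) :=
      le_iSup_of_le (⟨1, h1⟩ : {r : ℕ // HasSquares A.part A.ht (-(-1) ^ i) i k (fun _ => L) r})
        (by simp)
    rw [h] at h2
    simp at h2
  · intro h
    rw [← nonpos_iff_eq_zero]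
    refine iSup_le ?_
    rintro ⟨r, x, hx, hpos⟩
    rcases Nat.eq_zero_or_pos r with rfl | hr
    · simp
    · exfalso
      have h1 := hpos (fun a => if a = ⟨0, hr⟩ then 1 else 0) (by
        intro h0
        have := congrFun h0 ⟨0, hr⟩
        simp at this)
      simp only [Fin.prod_const, ite_mul, one_mul, zero_mul, mul_ite, mul_one, mul_zero,
        Finset.sum_ite_eq', Finset.mem_univ, if_true, Finset.sum_ite_irrel,
        Finset.sum_const_zero] at h1
      have h2 := h (x ⟨0, hr⟩) (hx _).1 (by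
        have := (hx ⟨0, hr⟩).2
        rw [Fin.prod_const] at this
        exact this)
      linarith

lemma quot_squares {J A : AV.{u, v}} {p : A.C →+* J.C} {φ : A.W → J.W} {b : ℕ} {M : J.C}
    (h : Pullback J A p φ b M) {i k : ℕ} (ε : ℝ) {L : A.C} {r : ℕ}
    (hr : HasSquares A.part A.ht ε i k (fun _ => L) r) :
    HasSquares J.part J.ht ε i (k + b) (fun _ => p L + M) r := by
  obtain ⟨x, hx, hpos⟩ := hr
  have hpow : ∀ j y, p L ^ j • φ y = φ (L ^ j • y) := by
    intro j y; rw [← map_pow, ← h.mul]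
  have h1 : ∀ a j, k < j → p L ^ j • φ (x a) = 0 := by
    intro a j hj
    obtain ⟨d, rfl⟩ : ∃ d, j = d + (k + 1) := ⟨j - (k + 1), by omega⟩
    have h0 := (hx a).2
    rw [Fin.prod_const] at h0
    rw [hpow, pow_add, mul_smul, h0, smul_zero, Quot.zero h]
  have h2 : ∀ a j, M ^ (b + 1) • (p L ^ j • φ (x a)) = 0 := by
    intro a j; rw [hpow]; exact h.zero _
  obtain ⟨δ, hδ, hht⟩ := h.height
  have hc : (0 : ℝ) < (k + b).choose k := by
    exact_mod_cast Nat.choose_pos (Nat.le_add_right k b)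
  refine ⟨fun a => φ (x a), fun a => ⟨Quot.Ch0_mem h (hx a).1, ?_⟩, fun t ht => ?_⟩
  · rw [Fin.prod_const]
    exact binom_zero (h1 a) (h2 a)
  · have h3 := hpos t ht
    simp only [Fin.prod_const] at h3 ⊢
    have h4 : ∀ a c, val J.ht (φ (x a)) ((p L + M) ^ (k + b) • φ (x c)) =
        ((k + b).choose k : ℝ) * (δ * val A.ht (x a) (L ^ k • x c)) := by
      intro a c
      rw [binom_top (h1 c) (h2 c), hpow, ← hht, val, map_nsmul, nsmul_eq_mul]
      rfl
    simp only [h4]
    have h5 : ε * ∑ a, ∑ c, t a * t c * (((k + b).choose k : ℝ) *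
        (δ * val A.ht (x a) (L ^ k • x c))) = (((k + b).choose k : ℝ) * δ) *
        (ε * ∑ a, ∑ c, t a * t c * val A.ht (x a) (L ^ k • x c)) := by
      simp only [Finset.mul_sum]
      refine Finset.sum_congr rfl fun a _ => Finset.sum_congr rfl fun c _ => ?_
      ring
    rw [h5]
    exact mul_pos (mul_pos hc hδ) h3

lemma quot_le {J A : AV.{u, v}} (h : IsQuotient J A) {i k k' : ℕ} (hik : A.dim + 1 = 2 * i + k)
    (hik' : J.dim + 1 = 2 * i + k') (ε : ℝ) {L : A.C} (hL : L ∈ A.ample) {N : J.C}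
    (hN : N ∈ J.ample) : squares A.part A.ht ε i k (fun _ => L) ≤
      squares J.part J.ht ε i k' (fun _ => N) := by
  obtain ⟨p, φ, b, M, hq⟩ := h
  obtain rfl : k' = k + b := by
    have := hq.dim
    omega
  obtain ⟨S, hS⟩ := A.nonempty
  rw [squares_ample A hik ε hL (M := fun _ => S) fun _ => hS,
    squares_ample J hik' ε hN (M := fun _ => p S + M) fun _ => hq.sym S hS]
  refine iSup_le ?_
  rintro ⟨r, hr⟩
  exact le_iSup_of_le (⟨r, quot_squares hq ε hr⟩ :
    {r : ℕ // HasSquares J.part J.ht ε i (k + b) (fun _ => p S + M) r}) le_rfl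

/-- **The number of squares does not depend on the polarization.** -/
theorem main (A : AV.{u, v}) {i k : ℕ} (hik : A.dim + 1 = 2 * i + k) :
    ∃ N N' : ℕ∞,
      (∀ L ∈ A.ample, A.plus i k (fun _ => L) = N ∧ A.minus i k (fun _ => L) = N') ∧
      ∀ L : Fin (k + 1) → A.C, (∀ p, L p ∈ A.Sym) → A.plus i k L = N ∧ A.minus i k L = N' := by
  obtain ⟨S, hS⟩ := A.nonempty
  exact ⟨A.plus i k (fun _ => S), A.minus i k (fun _ => S),
    fun L hL => ⟨squares_ample A hik _ hL fun _ => hS, squares_ample A hik _ hL fun _ => hS⟩,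
    fun L hL => ⟨squares_sym A hik _ hL fun _ => hS, squares_sym A hik _ hL fun _ => hS⟩⟩

end Pool.Agent.H844.Sig
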