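import Pool.Agent.H844.Sig.Path
import Pool.Agent.H844.Hgt.Lef1

/-!
# Sums of Lefschetz spaces
-/

open scoped TensorProduct

set_option autoImplicit false

namespace Pool.Agent.H844.Sig

open Pool.Agent.H844.Hgt

universe u v

variable {C : Type u} {W : Type v} [CommRing C] [Algebra ℚ C] [AddCommGroup W] [Module ℚ W]
  [Module C W] [IsScalarTower ℚ C W]

lemma bc_mono {P Q : Submodule ℚ W} (h : P ≤ Q) : P.baseChange ℝ ≤ Q.baseChange ℝ := by
  rw [Submodule.baseChange_eq_span, Submodule.baseChange_eq_span]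
  exact Submodule.span_mono (Submodule.map_mono h)

lemma bc_sup (P Q : Submodule ℚ W) :
    (P ⊔ Q).baseChange ℝ = P.baseChange ℝ ⊔ Q.baseChange ℝ := by
  apply le_antisymm
  · rw [Submodule.baseChange_eq_span, Submodule.span_le]
    rintro _ ⟨x, hx, rfl⟩
    obtain ⟨y, hy, z, hz, rfl⟩ := Submodule.mem_sup.1 hx
    rw [map_add]
    exact Submodule.add_mem _
      (Submodule.mem_sup_left (Submodule.tmul_mem_baseChange_of_mem _ hy))
      (Submodule.mem_sup_right (Submodule.tmul_mem_baseChange_of_mem _ hz))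
  · exact sup_le (bc_mono le_sup_left) (bc_mono le_sup_right)

lemma bc_finrank (P : Submodule ℚ W) [FiniteDimensional ℚ P] :
    Module.finrank ℝ (P.baseChange ℝ) = Module.finrank ℚ P := by
  have h : Function.Injective (P.subtype.baseChange ℝ) :=
    Module.Flat.lTensor_preserves_injective_linearMap (M := ℝ) P.subtype P.subtype_injective
  have e : P.baseChange ℝ = LinearMap.range (P.subtype.baseChange ℝ) := rfl
  rw [e, LinearMap.finrank_range_of_inj h, Module.finrank_baseChange]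

lemma inj_of_surj {V : Type*} [AddCommGroup V] [Module ℝ V] (f : Module.End ℝ V)
    (X Y : Submodule ℝ V) [FiniteDimensional ℝ X] [FiniteDimensional ℝ Y]
    (hd : Module.finrank ℝ X = Module.finrank ℝ Y) (hm : Set.MapsTo f X Y)
    (hs : Set.SurjOn f X Y) : Set.InjOn f X := by
  let D : X →ₗ[ℝ] Y := f.restrict hm
  have hDs : Function.Surjective D := by
    rintro ⟨x, hx⟩
    obtain ⟨y, hy, hyx⟩ := hs hx
    exact ⟨⟨y, hy⟩, Subtype.ext hyx⟩
  have hDi : Function.Injective D :=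
    (LinearMap.injective_iff_surjective_of_finrank_eq_finrank (f := D) hd).2 hDs
  intro x hx y hy hxy
  have h3 := @hDi ⟨x, hx⟩ ⟨y, hy⟩ (Subtype.ext hxy)
  exact congrArg Subtype.val h3

lemma lef_bot (c : ℤ) (Sym : Set C) : IsLefschetz (W := W) c Sym (fun _ => ⊥) where
  fin := fun _ => inferInstance
  mul := by
    intro L _ j x hx
    rw [Submodule.mem_bot] at hx ⊢
    rw [hx, smul_zero]
  hard := by
    intro j m hm δ hδ
    have e : ((⊥ : Submodule ℚ W).baseChange ℝ : Submodule ℝ (ℝ ⊗[ℚ] W)) = ⊥ := by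
      rw [Submodule.baseChange_eq_span, Submodule.map_bot]
      simp
    rw [e]
    refine ⟨?_, ?_, ?_⟩
    · intro x hx
      rw [SetLike.mem_coe, Submodule.mem_bot] at hx ⊢
      rw [hx, map_zero]
    · intro x hx y hy _
      rw [SetLike.mem_coe, Submodule.mem_bot] at hx hy
      rw [hx, hy]
    · intro x hx
      rw [SetLike.mem_coe, Submodule.mem_bot] at hx
      exact ⟨0, Submodule.zero_mem _, by rw [hx, map_zero]⟩

lemma lef_sup {c : ℤ} {Sym : Set C} (hne : Sym.Nonempty) {P : ℤ → Submodule ℚ W}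
    (hP : ∀ i, ∀ x ∈ P i, ∃ U : ℤ → Submodule ℚ W, IsLefschetz c Sym U ∧ (∀ j, U j ≤ P j) ∧ x ∈ U i)
    {U U' : ℤ → Submodule ℚ W} (hU : IsLefschetz c Sym U) (hU' : IsLefschetz c Sym U')
    (hUP : ∀ j, U j ≤ P j) (hUP' : ∀ j, U' j ≤ P j) :
    IsLefschetz c Sym (fun j => U j ⊔ U' j) := by
  have hfin : ∀ j, FiniteDimensional ℚ ↥(U j ⊔ U' j) := fun j => by
    have := hU.fin j
    have := hU'.fin j
    infer_instance
  refine ⟨hfin, ?_, ?_⟩
  · intro L hL j x hx
    obtain ⟨y, hy, z, hz, rfl⟩ := Submodule.mem_sup.1 hx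
    rw [smul_add]
    exact Submodule.add_mem _ (Submodule.mem_sup_left (hU.mul L hL j y hy))
      (Submodule.mem_sup_right (hU'.mul L hL j z hz))
  · intro j m hm δ hδ
    obtain ⟨L, hL⟩ := hne
    have h1 := hU.hard j m hm δ hδ
    have h2 := hU'.hard j m hm δ hδ
    have hmaps : Set.MapsTo (act (W := W) (∏ p, δ p)) ((U j ⊔ U' j).baseChange ℝ)
        ((U (j + m) ⊔ U' (j + m)).baseChange ℝ) := by
      intro x hx
      rw [SetLike.mem_coe, bc_sup] at hx ⊢
      obtain ⟨y, hy, z, hz, rfl⟩ := Submodule.mem_sup.1 hx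
      rw [map_add]
      exact Submodule.add_mem _ (Submodule.mem_sup_left (h1.mapsTo hy))
        (Submodule.mem_sup_right (h2.mapsTo hz))
    have hsurj : Set.SurjOn (act (W := W) (∏ p, δ p)) ((U j ⊔ U' j).baseChange ℝ)
        ((U (j + m) ⊔ U' (j + m)).baseChange ℝ) := by
      intro x hx
      rw [SetLike.mem_coe, bc_sup] at hx
      obtain ⟨y, hy, z, hz, rfl⟩ := Submodule.mem_sup.1 hx
      obtain ⟨y', hy', hyy⟩ := h1.surjOn hy
      obtain ⟨z', hz', hzz⟩ := h2.surjOn hz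
      refine ⟨y' + z', ?_, by rw [map_add, hyy, hzz]⟩
      rw [SetLike.mem_coe, bc_sup]
      exact Submodule.add_mem _ (Submodule.mem_sup_left hy') (Submodule.mem_sup_right hz')
    -- the dimensions
    have hdim : Module.finrank ℚ ↥(U j ⊔ U' j) = Module.finrank ℚ ↥(U (j + m) ⊔ U' (j + m)) := by
      have := hfin j
      have := hfin (j + m)
      have hmem : ∀ x ∈ U j ⊔ U' j, Algebra.lsmul ℚ ℚ W (L ^ m) x ∈ U (j + m) ⊔ U' (j + m) := by
        intro x hx
        obtain ⟨y, hy, z, hz, rfl⟩ := Submodule.mem_sup.1 hx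
        rw [map_add]
        exact Submodule.add_mem _ (Submodule.mem_sup_left (hU.pow_mem hL hy m))
          (Submodule.mem_sup_right (hU'.pow_mem hL hz m))
      let g : ↥(U j ⊔ U' j) →ₗ[ℚ] ↥(U (j + m) ⊔ U' (j + m)) :=
        (Algebra.lsmul ℚ ℚ W (L ^ m)).restrict hmem
      apply le_antisymm
      · refine LinearMap.finrank_le_finrank_of_injective (f := g) ?_
        rw [← LinearMap.ker_eq_bot, LinearMap.ker_eq_bot']
        rintro ⟨x, hx⟩ hx0
        have h3 : L ^ m • x = 0 := congrArg Subtype.val hx0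
        obtain ⟨U₀, hU₀, -, hx₀⟩ := hP j x ((sup_le (hUP j) (hUP' j)) hx)
        refine Subtype.ext (hU₀.inj hm (M := fun _ => L) (fun _ => hL) hx₀ ?_)
        rw [Fin.prod_const]; exact h3
      · refine LinearMap.finrank_le_finrank_of_surjective (f := g) ?_
        rintro ⟨x, hx⟩
        obtain ⟨y, hy, z, hz, rfl⟩ := Submodule.mem_sup.1 hx
        obtain ⟨y', hy', rfl⟩ := hU.surj hm (M := fun _ => L) (fun _ => hL) hy
        obtain ⟨z', hz', rfl⟩ := hU'.surj hm (M := fun _ => L) (fun _ => hL) hz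
        refine ⟨⟨y' + z', Submodule.add_mem _ (Submodule.mem_sup_left hy')
          (Submodule.mem_sup_right hz')⟩, Subtype.ext ?_⟩
        change L ^ m • (y' + z') = (∏ _p : Fin m, L) • y' + (∏ _p : Fin m, L) • z'
        rw [Fin.prod_const, smul_add]
    refine ⟨hmaps, ?_, hsurj⟩
    have i1 := hfin j
    have i2 := hfin (j + m)
    refine inj_of_surj _ _ _ ?_ hmaps hsurj
    rw [bc_finrank, bc_finrank, hdim]

/-- Finitely many cycles lie in one Lefschetz space. -/
lemma lef_family {c : ℤ} {Sym : Set C} (hne : Sym.Nonempty) {P : ℤ → Submodule ℚ W}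
    (hP : ∀ i, ∀ x ∈ P i, ∃ U : ℤ → Submodule ℚ W, IsLefschetz c Sym U ∧ (∀ j, U j ≤ P j) ∧ x ∈ U i)
    {i : ℤ} {r : ℕ} (x : Fin r → W) (hx : ∀ a, x a ∈ P i) :
    ∃ U : ℤ → Submodule ℚ W, IsLefschetz c Sym U ∧ (∀ j, U j ≤ P j) ∧ ∀ a, x a ∈ U i := by
  induction r with
  | zero => exact ⟨fun _ => ⊥, lef_bot c Sym, fun _ => bot_le, fun a => a.elim0⟩
  | succ r ih =>
    obtain ⟨U, hU, hUP, hxU⟩ := ih (fun a => x a.castSucc) fun a => hx _
    obtain ⟨U', hU', hUP', hxU'⟩ := hP i (x (Fin.last r)) (hx _)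
    refine ⟨fun j => U j ⊔ U' j, lef_sup hne hP hU hU' hUP hUP', fun j => sup_le (hUP j) (hUP' j),
      fun a => ?_⟩
    refine Fin.lastCases ?_ (fun b => ?_) a
    · exact Submodule.mem_sup_right hxU'
    · exact Submodule.mem_sup_left (hxU b)

end Pool.Agent.H844.Sig
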