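import Pool.Agent.H844.Sig.Lef

/-!
# The number of squares on the primitive classes does not depend on the polarization
-/

open scoped TensorProduct
open Set

set_option autoImplicit false

namespace Pool.Agent.H844.Sig

open Pool.Agent.H844.Hgt

universe u v

variable {C : Type u} {W : Type v} [CommRing C] [Algebra ℚ C] [AddCommGroup W] [Module ℚ W]
  [Module C W] [IsScalarTower ℚ C W]

lemma act_mul_apply (a b : ℝ ⊗[ℚ] C) (x : ℝ ⊗[ℚ] W) :
    act (W := W) a (act (W := W) b x) = act (W := W) (a * b) x := by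
  rw [map_mul, Module.End.mul_apply]

/-- The path in the primitive classes of a Lefschetz space. -/
lemma lef_path {c : ℤ} {Sym : Set C} {U : ℤ → Submodule ℚ W} (hU : IsLefschetz c Sym U)
    {ht : W →ₗ[ℚ] W →ₗ[ℚ] ℝ} (hs : ∀ x y, ht x y = ht y x)
    (ht_adj : ∀ (c : C) (x y : W), ht (c • x) y = ht x (c • y))
    {i : ℤ} {k : ℕ} (hc : 2 * i + k = c) (ε : ℝ) {L M : Fin (k + 1) → C} (hL : ∀ p, L p ∈ Sym)
    (hM : ∀ p, M p ∈ Sym) {r : ℕ}
    (h : GramR (ε • hR ht) (act (W := W) (1 ⊗ₜ[ℚ] ∏ p : Fin k, L p.castSucc))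
      ((U i).baseChange ℝ ⊓ LinearMap.ker (act (W := W) (1 ⊗ₜ[ℚ] ∏ p, L p))) r) :
    GramR (ε • hR ht) (act (W := W) (1 ⊗ₜ[ℚ] ∏ p : Fin k, M p.castSucc))
      ((U i).baseChange ℝ ⊓ LinearMap.ker (act (W := W) (1 ⊗ₜ[ℚ] ∏ p, M p))) r := by
  have f1 := hU.fin i
  have f2 := hU.fin (i - 1)
  let δ : ℝ → Fin (k + 1) → ℝ ⊗[ℚ] C := fun t p => seg (L p) (M p) t
  have hδ : ∀ t ∈ Icc (0 : ℝ) 1, ∀ p, RealAmple Sym (δ t p) := fun t ht p =>
    seg_ample (hL p) (hM p) ht
  let D : ℝ → Module.End ℝ (ℝ ⊗[ℚ] W) := fun t => act (∏ p : Fin k, δ t p.castSucc)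
  let E : ℝ → Module.End ℝ (ℝ ⊗[ℚ] W) := fun t => act (δ t (Fin.last k))
  have hD0 : D 0 = act (W := W) (1 ⊗ₜ[ℚ] ∏ p : Fin k, L p.castSucc) := by
    simp only [D, δ, seg_zero, prod_one_tmul]
  have hD1 : D 1 = act (W := W) (1 ⊗ₜ[ℚ] ∏ p : Fin k, M p.castSucc) := by
    simp only [D, δ, seg_one, prod_one_tmul]
  have hE0 : E 0 ∘ₗ D 0 = act (W := W) (1 ⊗ₜ[ℚ] ∏ p, L p) := by
    rw [hD0]
    refine LinearMap.ext fun x => ?_
    simp only [E, δ, seg_zero, LinearMap.comp_apply, act_mul_apply,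
      Algebra.TensorProduct.tmul_mul_tmul, one_mul]
    rw [Fin.prod_univ_castSucc, mul_comm]
  have hE1 : E 1 ∘ₗ D 1 = act (W := W) (1 ⊗ₜ[ℚ] ∏ p, M p) := by
    rw [hD1]
    refine LinearMap.ext fun x => ?_
    simp only [E, δ, seg_one, LinearMap.comp_apply, act_mul_apply,
      Algebra.TensorProduct.tmul_mul_tmul, one_mul]
    rw [Fin.prod_univ_castSucc, mul_comm]
  rw [← hD0, ← hE0] at h
  rw [← hD1, ← hE1]
  let δ' : ℝ → Fin (k + 2) → ℝ ⊗[ℚ] C := fun t =>
    Fin.cons (δ t (Fin.last k)) (Fin.cons (δ t (Fin.last k)) fun p => δ t p.castSucc)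
  have hGe : ∀ t x, E t (D t (E t x)) = act (W := W) (∏ p, δ' t p) x := by
    intro t x
    simp only [E, D, act_mul_apply]
    congr 2
    rw [Fin.prod_univ_succ, Fin.prod_univ_succ]
    simp only [δ', Fin.cons_zero, Fin.cons_succ]
    ring
  refine gram_path (X' := (U (i + k)).baseChange ℝ) (Y := (U (i - 1)).baseChange ℝ)
    (Y' := (U (i + k + 1)).baseChange ℝ) ?_ ?_ ?_ ?_ ?_ ?_ ?_ ?_ ?_ ?_ h
  · intro x y
    rw [LinearMap.smul_apply, LinearMap.smul_apply, LinearMap.smul_apply, LinearMap.smul_apply,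
      hR_symm hs]
  · intro t x y
    simp only [LinearMap.smul_apply]
    rw [hR_adj ht_adj]
  · intro t x y
    simp only [LinearMap.smul_apply]
    rw [hR_adj ht_adj]
  · intro t x
    simp only [D, E, act_mul_apply]
    rw [mul_comm]
  · intro φ x
    exact cont_prod Finset.univ (fun p : Fin k => L p.castSucc) (fun p => M p.castSucc) x φ
  · intro φ x
    simp only [hGe]
    have e : ∀ t, ∏ p, δ' t p = ∏ p : Fin (k + 2),
        ((1 - t) ⊗ₜ[ℚ] (Fin.cons (L (Fin.last k)) (Fin.cons (L (Fin.last k)) fun p => L p.castSucc) :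
          Fin (k + 2) → C) p + t ⊗ₜ[ℚ] (Fin.cons (M (Fin.last k)) (Fin.cons (M (Fin.last k))
          fun p => M p.castSucc) : Fin (k + 2) → C) p) := by
      intro t
      rw [Fin.prod_univ_succ, Fin.prod_univ_succ, Fin.prod_univ_succ, Fin.prod_univ_succ]
      simp only [δ', δ, seg, Fin.cons_zero, Fin.cons_succ]
    simp only [e]
    exact cont_prod Finset.univ _ _ x φ
  · intro t ht
    exact hU.hard i k hc _ fun p => hδ t ht _
  · intro t ht y hy
    have := hU.real_mul (hδ t ht (Fin.last k)) hy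
    rwa [sub_add_cancel] at this
  · intro t ht w hw
    exact hU.real_mul (hδ t ht (Fin.last k)) hw
  · intro t ht
    have h6 := hU.hard (i - 1) (k + 2) (by push_cast; linarith) (δ' t) (by
      intro p
      refine Fin.cases ?_ (fun q => ?_) p
      · exact hδ t ht _
      · refine Fin.cases ?_ (fun q' => ?_) q
        · exact hδ t ht _
        · exact hδ t ht _)
    have e : i - 1 + ((k + 2 : ℕ) : ℤ) = i + k + 1 := by push_cast; ring
    rw [e] at h6
    simp only [hGe]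
    exact h6

end Pool.Agent.H844.Sig
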