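import Pool.Agent.H844.Sig.Basic

/-!
# The number of positive squares on the primitive classes along a path
-/

open Set Filter Topology

set_option autoImplicit false

namespace Pool.Agent.H844.Sig

variable {V : Type*} [AddCommGroup V] [Module ℝ V]

/-- There are `r` vectors in `K` on whose nontrivial combinations the form `H (x, D x)` is
positive. -/
def GramR (H : V →ₗ[ℝ] V →ₗ[ℝ] ℝ) (D : Module.End ℝ V) (K : Submodule ℝ V) (r : ℕ) : Prop :=
  ∃ v : Fin r → V, (∀ a, v a ∈ K) ∧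
    ∀ t : Fin r → ℝ, t ≠ 0 → 0 < H (∑ a, t a • v a) (D (∑ a, t a • v a))

variable {H : V →ₗ[ℝ] V →ₗ[ℝ] ℝ}

/-- the form on a subspace -/
noncomputable def frm (H : V →ₗ[ℝ] V →ₗ[ℝ] ℝ) (D : Module.End ℝ V) (X : Submodule ℝ V) :
    X →ₗ[ℝ] X →ₗ[ℝ] ℝ := H.compl₁₂ X.subtype (D ∘ₗ X.subtype)

@[simp] lemma frm_apply (H : V →ₗ[ℝ] V →ₗ[ℝ] ℝ) (D : Module.End ℝ V) (X : Submodule ℝ V)
    (x y : X) : frm H D X x y = H x (D y) := rfl

lemma gram_iff (D : Module.End ℝ V) (K : Submodule ℝ V) (r : ℕ) :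
    GramR H D K r ↔ PF (frm H D K) r := by
  constructor
  · rintro ⟨v, hv, h⟩
    refine ⟨fun a => ⟨v a, hv a⟩, fun t ht => ?_⟩
    have e : ((∑ a, t a • (⟨v a, hv a⟩ : K) : K) : V) = ∑ a, t a • v a := by simp
    rw [frm_apply, e]
    exact h t ht
  · rintro ⟨v, h⟩
    refine ⟨fun a => v a, fun a => (v a).2, fun t ht => ?_⟩
    have e : ((∑ a, t a • v a : K) : V) = ∑ a, t a • (v a : V) := by simp
    have h1 := h t ht
    rw [frm_apply, e] at h1
    exact h1

lemma ker_frm {D : Module.End ℝ V} {X X' : Submodule ℝ V} (h1 : BijOn D X X') (x : X) :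
    x ∈ LinearMap.ker (frm H D X) ↔ ∀ w ∈ X', H x w = 0 := by
  rw [LinearMap.mem_ker]
  constructor
  · intro h w hw
    obtain ⟨y, hy, rfl⟩ := h1.surjOn hw
    exact LinearMap.congr_fun h ⟨y, hy⟩
  · intro h
    ext y
    exact h _ (h1.mapsTo y.2)

/-- **The number of positive squares on the primitive classes.** -/
theorem gram_path (hs : ∀ x y, H x y = H y x) {D E : ℝ → Module.End ℝ V}
    (hD : ∀ t x y, H (D t x) y = H x (D t y)) (hE : ∀ t x y, H (E t x) y = H x (E t y))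
    (hcomm : ∀ t x, D t (E t x) = E t (D t x))
    {X X' Y Y' : Submodule ℝ V} [FiniteDimensional ℝ X] [FiniteDimensional ℝ Y]
    (hDc : ∀ (φ : V →ₗ[ℝ] ℝ) (x : V), Continuous fun t => φ (D t x))
    (hEc : ∀ (φ : V →ₗ[ℝ] ℝ) (x : V), Continuous fun t => φ (E t (D t (E t x))))
    (h1 : ∀ t ∈ Icc (0 : ℝ) 1, BijOn (D t) X X')
    (h3 : ∀ t ∈ Icc (0 : ℝ) 1, ∀ y ∈ Y, E t y ∈ X)
    (h4 : ∀ t ∈ Icc (0 : ℝ) 1, ∀ w ∈ X', E t w ∈ Y')
    (h5 : ∀ t ∈ Icc (0 : ℝ) 1, BijOn (fun y => E t (D t (E t y))) Y Y') {r : ℕ}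
    (h : GramR H (D 0) (X ⊓ LinearMap.ker (E 0 ∘ₗ D 0)) r) :
    GramR H (D 1) (X ⊓ LinearMap.ker (E 1 ∘ₗ D 1)) r := by
  let G : ℝ → Module.End ℝ V := fun t => E t ∘ₗ D t ∘ₗ E t
  have hG : ∀ t x y, H (G t x) y = H x (G t y) := by
    intro t x y
    change H (E t (D t (E t x))) y = H x (E t (D t (E t y)))
    rw [hE, hD, hE]
  -- the formula at the time t
  have key : ∀ t ∈ Icc (0 : ℝ) 1, pos (frm H (D t) X) =
      pos (frm H (D t) (X ⊓ LinearMap.ker (E t ∘ₗ D t))) + pos (frm H (G t) Y) := by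
    intro t ht
    let f : ↥(X ⊓ LinearMap.ker (E t ∘ₗ D t)) →ₗ[ℝ] X := Submodule.inclusion inf_le_left
    let g : Y →ₗ[ℝ] X := LinearMap.codRestrict X ((E t) ∘ₗ Y.subtype) fun y => h3 t ht _ y.2
    have e1 : pull (frm H (D t) X) f = frm H (D t) (X ⊓ LinearMap.ker (E t ∘ₗ D t)) := by
      ext x y; rfl
    have e2 : pull (frm H (D t) X) g = frm H (G t) Y := by
      ext x y
      change H (E t x) (D t (E t y)) = H x (E t (D t (E t y)))
      rw [hE]
    have : FiniteDimensional ℝ ↥(X ⊓ LinearMap.ker (E t ∘ₗ D t)) :=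
      Submodule.finiteDimensional_of_le inf_le_left
    rw [← e1, ← e2]
    refine pos_coprod (fun x y => ?_) (fun x y => ?_) ⟨?_, ?_⟩
    · rw [frm_apply, frm_apply, hs, hD]
    · change H x (D t (E t y)) = 0
      have hx : E t (D t x) = 0 := x.2.2
      rw [hcomm, ← hE, ← hD, hcomm, hx, map_zero, LinearMap.zero_apply]
    · rw [← LinearMap.ker_eq_bot, LinearMap.ker_eq_bot']
      rintro ⟨x, y⟩ hxy
      have h6 : (x : V) + E t y = 0 := congrArg Subtype.val hxy
      have hx : E t (D t x) = 0 := x.2.2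
      have h7 : E t (D t (E t y)) = 0 := by
        have h8 : E t (D t ((x : V) + E t y)) = 0 := by rw [h6, map_zero, map_zero]
        rw [map_add, map_add, hx, zero_add] at h8
        exact h8
      have h9 : (y : V) = 0 := (h5 t ht).injOn y.2 Y.zero_mem (by
        rw [h7, map_zero, map_zero, map_zero])
      have h10 : y = 0 := Subtype.ext h9
      subst h10
      have h11 : (x : V) = 0 := by simpa using h6
      have h12 : x = 0 := Subtype.ext h11
      rw [h12]; rfl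
    · intro x
      obtain ⟨y, hy, hyx⟩ := (h5 t ht).surjOn (h4 t ht _ ((h1 t ht).mapsTo x.2))
      have hyx' : E t (D t (E t y)) = E t (D t x) := hyx
      refine ⟨(⟨(x : V) - E t y, X.sub_mem x.2 (h3 t ht _ hy), ?_⟩, ⟨y, hy⟩), ?_⟩
      · change E t (D t ((x : V) - E t y)) = 0
        rw [map_sub, map_sub, hyx', sub_self]
      · apply Subtype.ext
        change ((x : V) - E t y) + E t y = x
        abel
  have c1 : pos (frm H (D 0) X) = pos (frm H (D 1) X) := by
    refine pos_const (B := fun t => frm H (D t) X) (fun x y => ?_) (fun t x y => ?_)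
      (fun t ht => ?_)
    · exact hDc (H x) y
    · change H x (D t y) = H y (D t x)
      rw [hs, hD]
    · ext x
      rw [ker_frm (h1 t ht), ker_frm (h1 0 (by simp))]
  have c2 : pos (frm H (G 0) Y) = pos (frm H (G 1) Y) := by
    refine pos_const (B := fun t => frm H (G t) Y) (fun x y => ?_) (fun t x y => ?_)
      (fun t ht => ?_)
    · exact hEc (H x) y
    · change H x (G t y) = H y (G t x)
      rw [hs, hG]
    · ext x
      rw [ker_frm (h5 t ht), ker_frm (h5 0 (by simp))]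
  have k0 := key 0 (by simp)
  have k1 := key 1 (by simp)
  have i0 : FiniteDimensional ℝ ↥(X ⊓ LinearMap.ker (E 0 ∘ₗ D 0)) :=
    Submodule.finiteDimensional_of_le inf_le_left
  have i1 : FiniteDimensional ℝ ↥(X ⊓ LinearMap.ker (E 1 ∘ₗ D 1)) :=
    Submodule.finiteDimensional_of_le inf_le_left
  rw [gram_iff, pf_iff] at h ⊢
  omega

end Pool.Agent.H844.Sig
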