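import Pool.Agent.H844.Sig.Main

/-!
# Rational and real primitive classes
-/

open scoped TensorProduct
open Set Filter Topology

set_option autoImplicit false

namespace Pool.Agent.H844.Sig

open Pool.Agent.H844.Hgt

universe u v

variable {C : Type u} {W : Type v} [CommRing C] [Algebra ℚ C] [AddCommGroup W] [Module ℚ W]
  [Module C W] [IsScalarTower ℚ C W]

/-- `r` classes in `P` killed by `c` with a positive definite matrix `ε (x_a, d x_b)`. -/
def GramQ (ht : W →ₗ[ℚ] W →ₗ[ℚ] ℝ) (ε : ℝ) (c d : C) (P : Submodule ℚ W) (r : ℕ) : Prop :=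
  ∃ x : Fin r → W, (∀ a, x a ∈ P ∧ c • x a = 0) ∧ ∀ t : Fin r → ℝ, t ≠ 0 →
    0 < ε * ∑ a, ∑ b, t a * t b * ht (x a) (d • x b)

/-- the real form -/
noncomputable def form (ht : W →ₗ[ℚ] W →ₗ[ℚ] ℝ) (ε : ℝ) (d : C) :
    (ℝ ⊗[ℚ] W) →ₗ[ℝ] (ℝ ⊗[ℚ] W) →ₗ[ℝ] ℝ :=
  (ε • hR ht).compl₂ (act (W := W) (1 ⊗ₜ[ℚ] d))

lemma form_apply (ht : W →ₗ[ℚ] W →ₗ[ℚ] ℝ) (ε : ℝ) (d : C) (x y : ℝ ⊗[ℚ] W) :
    form ht ε d x y = (ε • hR ht) x (act (W := W) (1 ⊗ₜ[ℚ] d) y) := rfl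

lemma form_one (ht : W →ₗ[ℚ] W →ₗ[ℚ] ℝ) (ε : ℝ) (d : C) (x y : W) :
    form ht ε d (1 ⊗ₜ[ℚ] x) (1 ⊗ₜ[ℚ] y) = ε * ht x (d • y) := by
  rw [form_apply, act_one, LinearMap.smul_apply, LinearMap.smul_apply, hR_tmul, one_mul, one_mul,
    smul_eq_mul]

lemma toR {ht : W →ₗ[ℚ] W →ₗ[ℚ] ℝ} {ε : ℝ} {c d : C} {P : Submodule ℚ W} {r : ℕ}
    (h : GramQ ht ε c d P r) : GramR (ε • hR ht) (act (W := W) (1 ⊗ₜ[ℚ] d))
      (P.baseChange ℝ ⊓ LinearMap.ker (act (W := W) (1 ⊗ₜ[ℚ] c))) r := by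
  obtain ⟨x, hx, hpos⟩ := h
  refine ⟨fun a => 1 ⊗ₜ[ℚ] x a, fun a => ⟨Submodule.tmul_mem_baseChange_of_mem _ (hx a).1, ?_⟩,
    fun t ht0 => ?_⟩
  · rw [SetLike.mem_coe, LinearMap.mem_ker, act_one, (hx a).2, TensorProduct.tmul_zero]
  · rw [← form_apply, quad_sum]
    simp only [form_one]
    have := hpos t ht0
    rw [Finset.mul_sum] at this
    convert this using 2 with a
    rw [Finset.mul_sum]
    exact Finset.sum_congr rfl fun b _ => by ring

lemma toQ {ht : W →ₗ[ℚ] W →ₗ[ℚ] ℝ} {ε : ℝ} {d : C} {P : Submodule ℚ W} [FiniteDimensional ℚ P]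
    {r : ℕ} (h : GramR (ε • hR ht) (act (W := W) (1 ⊗ₜ[ℚ] d)) (P.baseChange ℝ) r) :
    ∃ x : Fin r → W, (∀ a, x a ∈ P) ∧ ∀ t : Fin r → ℝ, t ≠ 0 →
      0 < ε * ∑ a, ∑ b, t a * t b * ht (x a) (d • x b) := by
  classical
  obtain ⟨v, hv, hpos⟩ := h
  let m := Module.finrank ℚ P
  let b := Module.finBasis ℚ P
  let f : (Fin m → ℝ) → ℝ ⊗[ℚ] W := fun a => ∑ i, a i • (1 ⊗ₜ[ℚ] (b i : W))
  have hf : ∀ z ∈ P.baseChange ℝ, ∃ a, f a = z := by
    intro z hz
    rw [Submodule.baseChange_eq_span] at hz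
    induction hz using Submodule.span_induction with
    | mem x hx =>
      obtain ⟨w, hw, rfl⟩ := hx
      refine ⟨fun i => (b.repr ⟨w, hw⟩ i : ℝ), ?_⟩
      obtain ⟨w', rfl⟩ : ∃ w' : P, (w' : W) = w := ⟨⟨w, hw⟩, rfl⟩
      have h1 := congrArg Subtype.val (b.sum_repr w')
      simp only [Submodule.coe_sum, Submodule.coe_smul] at h1
      rw [TensorProduct.mk_apply]
      conv_rhs => rw [← h1, TensorProduct.tmul_sum]
      refine Finset.sum_congr rfl fun i _ => ?_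
      rw [← TensorProduct.smul_tmul, Rat.smul_def, mul_one, TensorProduct.smul_tmul', smul_eq_mul,
        mul_one]
    | zero => exact ⟨0, by simp [f]⟩
    | add x y _ _ hx hy =>
      obtain ⟨a, rfl⟩ := hx
      obtain ⟨c, rfl⟩ := hy
      refine ⟨a + c, ?_⟩
      simp only [f, Pi.add_apply, add_smul, Finset.sum_add_distrib]
    | smul r x _ hx =>
      obtain ⟨a, rfl⟩ := hx
      refine ⟨r • a, ?_⟩
      simp only [f, Pi.smul_apply, Finset.smul_sum, smul_eq_mul, mul_smul]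
  choose T₀ hT₀ using fun a => hf (v a) (hv a)
  let M : (Fin r → Fin m → ℝ) → Fin r → Fin r → ℝ := fun T a c =>
    ∑ i, ∑ j, T a i * T c j * form ht ε d (1 ⊗ₜ[ℚ] (b i : W)) (1 ⊗ₜ[ℚ] (b j : W))
  have hM : ∀ T a c, form ht ε d (f (T a)) (f (T c)) = M T a c := by
    intro T a c
    simp only [f, M]
    rw [LinearMap.map_sum₂]
    refine Finset.sum_congr rfl fun i _ => ?_
    rw [map_sum]
    refine Finset.sum_congr rfl fun j _ => ?_
    simp only [map_smul, LinearMap.smul_apply, smul_eq_mul]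
    ring
  have hcont : ∀ a c, Continuous fun T => M T a c := by
    intro a c
    simp only [M]
    fun_prop
  have h0 : ∀ t : Fin r → ℝ, t ≠ 0 → 0 < ∑ a, ∑ c, t a * t c * M T₀ a c := by
    intro t ht0
    have h1 := hpos t ht0
    rw [← form_apply, quad_sum] at h1
    convert h1 using 4 with a _ c _
    rw [← hM, hT₀, hT₀]
  have hev := open_pos M hcont h0
  obtain ⟨s, hs, hso, hsT⟩ := eventually_nhds_iff.1 hev
  have hdense : DenseRange (fun (q : Fin r → Fin m → ℚ) (a : Fin r) (j : Fin m) => (q a j : ℝ)) :=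
    DenseRange.piMap (f := fun _ : Fin r => fun (q : Fin m → ℚ) (j : Fin m) => (q j : ℝ))
      fun _ => DenseRange.piMap fun _ => Rat.denseRange_cast
  obtain ⟨q, hq⟩ := hdense.exists_mem_open hso ⟨T₀, hsT⟩
  have h2 := hs _ hq
  have e2 : ∀ a, f (fun j => (q a j : ℝ)) = 1 ⊗ₜ[ℚ] ((∑ i, q a i • b i : P) : W) := by
    intro a
    simp only [f, Submodule.coe_sum, Submodule.coe_smul, TensorProduct.tmul_sum]
    refine Finset.sum_congr rfl fun i _ => ?_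
    rw [← TensorProduct.smul_tmul, Rat.smul_def, mul_one, TensorProduct.smul_tmul', smul_eq_mul,
      mul_one]
  refine ⟨fun a => ((∑ i, q a i • b i : P) : W), fun a => Subtype.mem _, fun t ht0 => ?_⟩
  have h3 := h2 t ht0
  rw [Finset.mul_sum]
  convert h3 using 2 with a
  rw [Finset.mul_sum]
  refine Finset.sum_congr rfl fun c _ => ?_
  have h4 : M (fun a j => (q a j : ℝ)) a c = ε * ht ((∑ i, q a i • b i : P) : W)
      (d • ((∑ i, q c i • b i : P) : W)) := by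
    refine (hM (fun a j => (q a j : ℝ)) a c).symm.trans ?_
    change form ht ε d (f fun j => (q a j : ℝ)) (f fun j => (q c j : ℝ)) = _
    rw [e2, e2, form_one]
  rw [h4]
  ring

section Ker

variable {c : ℤ} {Sym : Set C} {U : ℤ → Submodule ℚ W} (hU : IsLefschetz c Sym U)

include hU

lemma mixed_decomp {i : ℤ} {k : ℕ} (hc : 2 * i + k = c) {L : Fin (k + 1) → C}
    (hL : ∀ p, L p ∈ Sym) {N : C} (hN : N ∈ Sym) {u : W} (hu : u ∈ U i) :
    ∃ u' ∈ U i, (∏ p, L p) • u' = 0 ∧ ∃ y ∈ U (i - 1), u = u' + N • y := by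
  have h1 : (∏ p, L p) • u ∈ U ((i - 1) + (k + 2 : ℕ)) := by
    have := hU.prod_mem Finset.univ hL hu
    rw [Finset.card_univ, Fintype.card_fin] at this
    have e : i + ((k + 1 : ℕ) : ℤ) = (i - 1) + ((k + 2 : ℕ) : ℤ) := by push_cast; ring
    rwa [e] at this
  have hN' : ∀ p, (Fin.cons N L : Fin (k + 2) → C) p ∈ Sym := by
    intro p
    refine Fin.cases ?_ (fun q => ?_) p
    · exact hN
    · exact hL q
  obtain ⟨y, hy, hyu⟩ := hU.surj (by push_cast; linarith) hN' h1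
  have hNy : N • y ∈ U i := by
    have := hU.mul N hN _ y hy
    rwa [sub_add_cancel] at this
  refine ⟨u - N • y, Submodule.sub_mem _ hu hNy, ?_, y, hy, by abel⟩
  rw [Fin.prod_univ_succ] at hyu
  simp only [Fin.cons_zero, Fin.cons_succ] at hyu
  rw [smul_sub, ← mul_smul, mul_comm _ N, hyu, sub_self]

lemma ker_real {i : ℤ} {k : ℕ} (hc : 2 * i + k = c) {L : Fin (k + 1) → C}
    (hL : ∀ p, L p ∈ Sym) {z : ℝ ⊗[ℚ] W} (hz : z ∈ (U i).baseChange ℝ)
    (h0 : act (W := W) (1 ⊗ₜ[ℚ] ∏ p, L p) z = 0) :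
    z ∈ (U i ⊓ LinearMap.ker (Algebra.lsmul ℚ ℚ W (∏ p, L p))).baseChange ℝ := by
  set Q := U i ⊓ LinearMap.ker (Algebra.lsmul ℚ ℚ W (∏ p, L p)) with hQ
  have hdec : ∀ z ∈ (U i).baseChange ℝ, ∃ p ∈ Q.baseChange ℝ, ∃ y ∈ (U (i - 1)).baseChange ℝ,
      z = p + act (W := W) (1 ⊗ₜ[ℚ] L 0) y := by
    intro z hz
    rw [Submodule.baseChange_eq_span] at hz
    induction hz using Submodule.span_induction with
    | mem x hx =>
      obtain ⟨w, hw, rfl⟩ := hx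
      obtain ⟨u', hu', hu0, y, hy, rfl⟩ := mixed_decomp hU hc hL (hL 0) hw
      refine ⟨1 ⊗ₜ[ℚ] u', Submodule.tmul_mem_baseChange_of_mem _ ⟨hu', hu0⟩, 1 ⊗ₜ[ℚ] y,
        Submodule.tmul_mem_baseChange_of_mem _ hy, ?_⟩
      rw [act_one, TensorProduct.mk_apply, TensorProduct.tmul_add]
    | zero => exact ⟨0, Submodule.zero_mem _, 0, Submodule.zero_mem _, by simp⟩
    | add a b _ _ ha hb =>
      obtain ⟨p, hp, y, hy, rfl⟩ := ha
      obtain ⟨q, hq, x, hx, rfl⟩ := hb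
      refine ⟨p + q, Submodule.add_mem _ hp hq, y + x, Submodule.add_mem _ hy hx, ?_⟩
      rw [map_add]; abel
    | smul r a _ ha =>
      obtain ⟨p, hp, y, hy, rfl⟩ := ha
      refine ⟨r • p, Submodule.smul_mem _ r hp, r • y, Submodule.smul_mem _ r hy, ?_⟩
      rw [map_smul, smul_add]
  have hker : ∀ p ∈ Q.baseChange ℝ, act (W := W) (1 ⊗ₜ[ℚ] ∏ p, L p) p = 0 := by
    intro p hp
    rw [Submodule.baseChange_eq_span] at hp
    induction hp using Submodule.span_induction with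
    | mem x hx =>
      obtain ⟨w, hw, rfl⟩ := hx
      have h1 : (∏ p, L p) • w = 0 := hw.2
      rw [TensorProduct.mk_apply, act_one, h1, TensorProduct.tmul_zero]
    | zero => rw [map_zero]
    | add a b _ _ ha hb => rw [map_add, ha, hb, add_zero]
    | smul r a _ ha => rw [map_smul, ha, smul_zero]
  obtain ⟨p, hp, y, hy, rfl⟩ := hdec z hz
  rw [map_add, hker p hp, zero_add, act_mul_apply, Algebra.TensorProduct.tmul_mul_tmul,
    one_mul] at h0
  have hN' : ∀ p, (Fin.cons (L 0) L : Fin (k + 2) → C) p ∈ Sym := by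
    intro p
    refine Fin.cases ?_ (fun q => ?_) p
    · exact hL 0
    · exact hL q
  have h2 := hU.hard (i - 1) (k + 2) (by push_cast; linarith)
    (fun p => 1 ⊗ₜ[ℚ] (Fin.cons (L 0) L : Fin (k + 2) → C) p)
    fun p => RealAmple.of one_pos (hN' p)
  rw [prod_one_tmul, Fin.prod_univ_succ] at h2
  simp only [Fin.cons_zero, Fin.cons_succ] at h2
  have h3 : y = 0 := by
    apply h2.injOn hy (Submodule.zero_mem _)
    rw [map_zero, mul_comm]
    exact h0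
  rw [h3, map_zero, add_zero]
  exact hp

end Ker

/-- **The number of squares in a Lefschetz space.** -/
theorem lef_gram {c : ℤ} {Sym : Set C} {U : ℤ → Submodule ℚ W} (hU : IsLefschetz c Sym U)
    {ht : W →ₗ[ℚ] W →ₗ[ℚ] ℝ} (hs : ∀ x y, ht x y = ht y x)
    (ht_adj : ∀ (c : C) (x y : W), ht (c • x) y = ht x (c • y))
    {i : ℤ} {k : ℕ} (hc : 2 * i + k = c) (ε : ℝ) {L M : Fin (k + 1) → C} (hL : ∀ p, L p ∈ Sym)
    (hM : ∀ p, M p ∈ Sym) {r : ℕ}
    (h : GramQ ht ε (∏ p, L p) (∏ p : Fin k, L p.castSucc) (U i) r) :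
    GramQ ht ε (∏ p, M p) (∏ p : Fin k, M p.castSucc) (U i) r := by
  obtain ⟨v, hv, hpos⟩ := lef_path hU hs ht_adj hc ε hL hM (toR h)
  have f1 := hU.fin i
  have f2 : FiniteDimensional ℚ ↥(U i ⊓ LinearMap.ker (Algebra.lsmul ℚ ℚ W (∏ p, M p))) :=
    Submodule.finiteDimensional_of_le inf_le_left
  obtain ⟨x, hx, hxp⟩ := toQ (P := U i ⊓ LinearMap.ker (Algebra.lsmul ℚ ℚ W (∏ p, M p)))
    ⟨v, fun a => ker_real hU hc hM (hv a).1 (hv a).2, hpos⟩
  exact ⟨x, fun a => ⟨(hx a).1, (hx a).2⟩, hxp⟩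

end Pool.Agent.H844.Sig
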