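import Pool.Agent.H844.Hgt.St2

/-!
# The number of positive and negative squares of the height form on primitive classes: definitions
-/

set_option autoImplicit false

namespace Pool.Agent.H844.Hgt.St

universe u v

section

variable {C : Type u} {W : Type v} [CommRing C] [Algebra ℚ C] [AddCommGroup W] [Module ℚ W]
  [Module C W] [IsScalarTower ℚ C W]

/-- `Ch^i(A)^0` contains `r` classes `x_1, …, x_r` with `L_0 ⋯ L_k x_a = 0` for which the real
symmetric matrix `ε (x_a, L_0 ⋯ L_(k-1) x_b)` is positive definite. -/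
def HasSquares (part : ℤ → Gr W) (ht : Pairing W) (ε : ℝ) (i k : ℕ) (L : Fin (k + 1) → C)
    (r : ℕ) : Prop :=
  ∃ x : Fin r → W, (∀ a, x a ∈ Ch0 part i ∧ (∏ p, L p) • x a = 0) ∧
    ∀ t : Fin r → ℝ, t ≠ 0 →
      0 < ε * ∑ a, ∑ b, t a * t b * val ht (x a) ((∏ p : Fin k, L p.castSucc) • x b)

/-- The largest `r` as in `HasSquares`, in `ℕ ∪ {∞}`. -/
noncomputable def squares (part : ℤ → Gr W) (ht : Pairing W) (ε : ℝ) (i k : ℕ)
    (L : Fin (k + 1) → C) : ℕ∞ :=
  ⨆ r : {r : ℕ // HasSquares part ht ε i k L r}, ((r : ℕ) : ℕ∞)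

end

namespace AV

/-- The number of the positive squares of the form `(-1)^i (x, L_0 ⋯ L_(k-1) x)` on the classes `x`
in `Ch^i(A)^0` with `L_0 ⋯ L_k x = 0`. -/
noncomputable def plus (A : AV.{u, v}) (i k : ℕ) (L : Fin (k + 1) → A.C) : ℕ∞ :=
  squares A.part A.ht ((-1) ^ i) i k L

/-- The number of the negative squares of the form `(-1)^i (x, L_0 ⋯ L_(k-1) x)` on the classes `x`
in `Ch^i(A)^0` with `L_0 ⋯ L_k x = 0`. -/
noncomputable def minus (A : AV.{u, v}) (i k : ℕ) (L : Fin (k + 1) → A.C) : ℕ∞ :=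
  squares A.part A.ht (-(-1) ^ i) i k L

/-- Question 2 for `A`, the codimension `i` and the class `L`, with `≥` instead of `>`. -/
def SemiQ2 (A : AV.{u, v}) (i k : ℕ) (L : A.C) : Prop :=
  ∀ x ∈ Ch0 A.part i, L ^ (k + 1) • x = 0 → 0 ≤ (-1) ^ i * val A.ht x (L ^ k • x)

end AV

end Pool.Agent.H844.Hgt.St
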